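import Pool.Agent.Mg.F1a2790.Gd72f8f

open Pool.Agent.MP_1a2790_an in
/-- Q1: for every finite `F ⊂ ∂𝔻` and `τ ∈ ∂𝔻 \ F` the semigroup `𝔘_τ[F]` has the embedding
property. -/
theorem Pool.Agent.Results.MP_1a2790_an.Embedding.result (F : Set ℂ) (τ : ℂ) (hF : F.Finite)
    (hFs : F ⊆ Metric.sphere 0 1) (hτ : τ ∈ Metric.sphere 0 1) (hτF : τ ∉ F) :
    HasEmbeddingProperty (UtauF τ F) :=
  embedding F τ hF hFs hτ hτF
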