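import Pool.Agent.Mg.F1a2790.G1da057

open Pool.Agent.MP_1a2790_an in
/-- Q2: for every finite `F ⊂ ∂𝔻` the semigroup `𝔘[F]` has the embedding property. -/
theorem Pool.Agent.Results.MP_1a2790_an.EmbeddingUF.result (F : Set ℂ) (hF : F.Finite)
    (hFs : F ⊆ Metric.sphere 0 1) : HasEmbeddingProperty (UF F) :=
  embedding_UF F hF hFs
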